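import Mathlib

/-!
Chern numbers of complete intersection surfaces: the coefficients of the total Chern class.
-/

namespace Pool.Agent.Work.MP_671ba1_h57

open PowerSeries

/-- Total Chern class of a smooth complete intersection surface of multidegree `δ` in
`P^(n+2)`, `n = δ.length`, as a power series in the hyperplane class:
`(1 + X)^(n+3) / ∏ (1 + d X)`, the product over the entries `d` of `δ`. -/
noncomputable def chern (δ : List ℕ) : ℚ⟦X⟧ :=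
  (1 + X) ^ (δ.length + 3) * ((δ.map fun d : ℕ => 1 + C (d : ℚ) * X).prod)⁻¹

/-- The number `r` with `K = r x`, `x` the hyperplane class. -/
noncomputable def canon (δ : List ℕ) : ℚ := -coeff 1 (chern δ)

/-- `c₁²`. -/
noncomputable def c1sq (δ : List ℕ) : ℚ := coeff 1 (chern δ) ^ 2 * (δ.prod : ℕ)

/-- `c₂` = Euler characteristic. -/
noncomputable def c2 (δ : List ℕ) : ℚ := coeff 2 (chern δ) * (δ.prod : ℕ)

theorem coeff_two_mul (f g : ℚ⟦X⟧) : coeff 2 (f * g) =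
    coeff 0 f * coeff 2 g + coeff 1 f * coeff 1 g + coeff 2 f * coeff 0 g := by
  rw [coeff_mul, Finset.Nat.antidiagonal_eq_map]
  simp [Finset.sum_range_succ]

theorem coeff_one_mul' (f g : ℚ⟦X⟧) : coeff 1 (f * g) =
    coeff 0 f * coeff 1 g + coeff 1 f * coeff 0 g := by
  rw [coeff_mul, Finset.Nat.antidiagonal_eq_map]
  simp [Finset.sum_range_succ]

theorem coeff_zero_mul' (f g : ℚ⟦X⟧) : coeff 0 (f * g) = coeff 0 f * coeff 0 g := by
  simp

theorem pow_coeffs (n : ℕ) : coeff 0 ((1 + X : ℚ⟦X⟧) ^ n) = 1 ∧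
    coeff 1 ((1 + X : ℚ⟦X⟧) ^ n) = n ∧
    coeff 2 ((1 + X : ℚ⟦X⟧) ^ n) = n * (n - 1) / 2 := by
  induction n with
  | zero => simp [coeff_one]
  | succ n ih =>
    obtain ⟨h0, h1, h2⟩ := ih
    rw [pow_succ]
    refine ⟨?_, ?_, ?_⟩
    · rw [coeff_zero_mul', h0]; simp
    · rw [coeff_one_mul', h0, h1]; simp [coeff_one]
      ring
    · rw [coeff_two_mul, h0, h1, h2]; simp [coeff_one, coeff_X]
      ring

theorem prod_coeffs (δ : List ℕ) :
    coeff 0 ((δ.map fun d : ℕ => 1 + C (d : ℚ) * X).prod : ℚ⟦X⟧) = 1 ∧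
    coeff 1 ((δ.map fun d : ℕ => 1 + C (d : ℚ) * X).prod : ℚ⟦X⟧) = (δ.map fun d : ℕ => (d : ℚ)).sum ∧
    coeff 2 ((δ.map fun d : ℕ => 1 + C (d : ℚ) * X).prod : ℚ⟦X⟧) =
      ((δ.map fun d : ℕ => (d : ℚ)).sum ^ 2 - (δ.map fun d : ℕ => (d : ℚ) ^ 2).sum) / 2 := by
  induction δ with
  | nil => simp [coeff_one]
  | cons e δ ih =>
    obtain ⟨h0, h1, h2⟩ := ih
    have e0 : coeff 0 (1 + C (e : ℚ) * X : ℚ⟦X⟧) = 1 := by simp
    have e1 : coeff 1 (1 + C (e : ℚ) * X : ℚ⟦X⟧) = e := by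
      rw [map_add, coeff_C_mul]; simp [coeff_one]
    have e2 : coeff 2 (1 + C (e : ℚ) * X : ℚ⟦X⟧) = 0 := by
      rw [map_add, coeff_C_mul]; simp [coeff_one, coeff_X]
    rw [List.map_cons, List.prod_cons]
    refine ⟨?_, ?_, ?_⟩
    · rw [coeff_zero_mul', h0, e0]; ring
    · rw [coeff_one_mul', h0, h1, e0, e1, List.map_cons, List.sum_cons]; ring
    · rw [coeff_two_mul, h0, h1, h2, e0, e1, e2]
      simp only [List.map_cons, List.sum_cons]; ring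

theorem inv_coeffs (f : ℚ⟦X⟧) (h : coeff 0 f = 1) : coeff 0 f⁻¹ = 1 ∧
    coeff 1 f⁻¹ = -coeff 1 f ∧ coeff 2 f⁻¹ = coeff 1 f ^ 2 - coeff 2 f := by
  have hf : constantCoeff f ≠ 0 := by
    rw [← coeff_zero_eq_constantCoeff_apply, h]; norm_num
  have hm := PowerSeries.mul_inv_cancel f hf
  have h0 := congrArg (coeff 0) hm
  have h1 := congrArg (coeff 1) hm
  have h2 := congrArg (coeff 2) hm
  rw [coeff_zero_mul', h] at h0
  rw [coeff_one_mul', h] at h1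
  rw [coeff_two_mul, h] at h2
  have z0 : coeff 0 (1 : ℚ⟦X⟧) = 1 := by simp
  have z1 : coeff 1 (1 : ℚ⟦X⟧) = 0 := by simp [coeff_one]
  have z2 : coeff 2 (1 : ℚ⟦X⟧) = 0 := by simp [coeff_one]
  rw [z0] at h0
  rw [z1] at h1
  rw [z2] at h2
  have k0 : coeff 0 f⁻¹ = 1 := by linarith
  rw [k0] at h1 h2
  have k1 : coeff 1 f⁻¹ = -coeff 1 f := by linarith
  rw [k1] at h2
  exact ⟨k0, k1, by linarith⟩

theorem chern_coeffs (δ : List ℕ) :
    coeff 1 (chern δ) = (δ.length + 3 : ℚ) - (δ.map fun d : ℕ => (d : ℚ)).sum ∧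
    coeff 2 (chern δ) = (δ.length + 3 : ℚ) * (δ.length + 2) / 2
      - (δ.length + 3) * (δ.map fun d : ℕ => (d : ℚ)).sum
      + ((δ.map fun d : ℕ => (d : ℚ)).sum ^ 2 + (δ.map fun d : ℕ => (d : ℚ) ^ 2).sum) / 2 := by
  obtain ⟨p0, p1, p2⟩ := pow_coeffs (δ.length + 3)
  obtain ⟨q0, q1, q2⟩ := prod_coeffs δ
  obtain ⟨i0, i1, i2⟩ := inv_coeffs _ q0
  refine ⟨?_, ?_⟩
  · rw [chern, coeff_one_mul', p0, p1, i0, i1, q1]; push_cast; ring
  · rw [chern, coeff_two_mul, p0, p1, p2, i0, i1, i2, q1, q2]; push_cast; ring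

end Pool.Agent.Work.MP_671ba1_h57
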