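import Pool.Agent.Work.MP_671ba1_h57.Arith
import Pool.Agent.Work.MP_671ba1_h57.Chern

/-!
The families of multidegrees with equal Chern numbers and different canonical coefficients.
-/

namespace Pool.Agent.Work.MP_671ba1_h57

/-- the list of entries `2, 4, 8, a, 2a` with multiplicities -/
def lst (x1 x2 x3 k0 k1 a : ℕ) : List ℕ :=
  List.replicate x1 2 ++ (List.replicate x2 4 ++ (List.replicate x3 8 ++
    (List.replicate k0 a ++ List.replicate k1 (2 * a))))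

theorem lst_length (x1 x2 x3 k0 k1 a : ℕ) :
    (lst x1 x2 x3 k0 k1 a).length = x1 + x2 + x3 + k0 + k1 := by
  simp [lst]; ring

theorem lst_sum (x1 x2 x3 k0 k1 a : ℕ) :
    ((lst x1 x2 x3 k0 k1 a).map fun d : ℕ => (d : ℚ)).sum =
      2 * x1 + 4 * x2 + 8 * x3 + a * k0 + 2 * a * k1 := by
  simp [lst]; ring

theorem lst_sq (x1 x2 x3 k0 k1 a : ℕ) :
    ((lst x1 x2 x3 k0 k1 a).map fun d : ℕ => (d : ℚ) ^ 2).sum =
      4 * x1 + 16 * x2 + 64 * x3 + a ^ 2 * k0 + 4 * a ^ 2 * k1 := by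
  simp [lst]; ring

theorem lst_prod (x1 x2 x3 k0 k1 s : ℕ) :
    (lst x1 x2 x3 k0 k1 (2 ^ s)).prod = 2 ^ (x1 + 2 * x2 + 3 * x3 + s * k0 + (s + 1) * k1) := by
  have h4 : (4 : ℕ) = 2 ^ 2 := by norm_num
  have h8 : (8 : ℕ) = 2 ^ 3 := by norm_num
  have h2 : 2 * 2 ^ s = 2 ^ (s + 1) := by rw [pow_succ]; ring
  simp only [lst, List.prod_append, List.prod_replicate]
  rw [h2, h4, h8, ← pow_mul, ← pow_mul, ← pow_mul, ← pow_mul, ← pow_add, ← pow_add, ← pow_add,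
    ← pow_add]
  congr 1
  ring

theorem lst_ge {x1 x2 x3 k0 k1 a : ℕ} (ha : 2 ≤ a) : ∀ t ∈ lst x1 x2 x3 k0 k1 a, 2 ≤ t := by
  intro t ht
  simp only [lst, List.mem_append, List.mem_replicate] at ht
  omega

/-- Existence for a single exponent `s = 3 t`. -/
theorem exists_lst (S t : ℕ) (hS : 15 ≤ S) (hbig : 100 * S ≤ 2 ^ (3 * t)) (ht : 3 * t ≤ S) :
    ∃ d : List ℕ, (∀ e ∈ d, 2 ≤ e) ∧
      d.prod * (2 ^ (3 * t)) ^ 3 = 2 ^ (36 * (2 ^ S) ^ 2 * (9 * S + 2)) ∧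
      (d.map fun e : ℕ => (e : ℚ)).sum =
        d.length + ((36 * (2 ^ S) ^ 2 - 4) * 2 ^ (3 * t) + 4) ∧
      (d.map fun e : ℕ => (e : ℚ) ^ 2).sum =
        d.length + ((36 * (2 ^ S) ^ 2 - 4) * (2 ^ (3 * t)) ^ 2 + 4) := by
  obtain ⟨x1, x2, x3, k0, k1, h1, h2, h3, h4, h5, e1, e2, e3⟩ :=
    exists_counts_int (S : ℤ) (2 ^ (3 * t)) (2 ^ (S - 3 * t)) t (by exact_mod_cast hS)
      (by exact_mod_cast hbig) (by exact_mod_cast Nat.one_le_two_pow) (by positivity)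
      (by exact_mod_cast ht)
  have hau : (2 : ℤ) ^ (3 * t) * 2 ^ (S - 3 * t) = 2 ^ S := by
    rw [← pow_add]; congr 1; omega
  rw [hau] at e1 e2 e3
  obtain ⟨x1, rfl⟩ := Int.eq_ofNat_of_zero_le h1
  obtain ⟨x2, rfl⟩ := Int.eq_ofNat_of_zero_le h2
  obtain ⟨x3, rfl⟩ := Int.eq_ofNat_of_zero_le h3
  obtain ⟨k0, rfl⟩ := Int.eq_ofNat_of_zero_le h4
  obtain ⟨k1, rfl⟩ := Int.eq_ofNat_of_zero_le h5
  have ha2 : 2 ≤ 2 ^ (3 * t) := by omega
  refine ⟨lst x1 x2 x3 k0 k1 (2 ^ (3 * t)), lst_ge ha2, ?_, ?_, ?_⟩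
  · rw [lst_prod, ← pow_mul, ← pow_add]
    congr 1
    zify
    linarith
  · rw [lst_sum, lst_length]
    have e2' := congrArg (Int.cast : ℤ → ℚ) e2
    push_cast at e2' ⊢
    linarith
  · rw [lst_sq, lst_length]
    have e3' := congrArg (Int.cast : ℤ → ℚ) e3
    push_cast at e3' ⊢
    linarith

theorem pow_big (N : ℕ) : 100 * (3 * (2 * N + 5)) ≤ 2 ^ (3 * (N + 5)) := by
  induction N with
  | zero => norm_num
  | succ n ih =>
    have : 2 ^ (3 * (n + 1 + 5)) = 8 * 2 ^ (3 * (n + 5)) := by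
      rw [show 3 * (n + 1 + 5) = 3 * (n + 5) + 3 by ring, pow_add]; ring
    rw [this]
    omega

/-- Numbers of a multidegree `(a k, d)`. -/
theorem numbers (a α c : ℕ) (d : List ℕ) (k : ℕ) (hprod : d.prod * a ^ 3 = 2 ^ c)
    (h1 : (d.map fun e : ℕ => (e : ℚ)).sum = d.length + (α * a + 4))
    (h2 : (d.map fun e : ℕ => (e : ℚ) ^ 2).sum = d.length + (α * a ^ 2 + 4)) :
    canon (a * k :: d) = a * (α + k) ∧
    c1sq (a * k :: d) = k * (α + k) ^ 2 * 2 ^ c ∧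
    c2 (a * k :: d) = k * ((α + k) ^ 2 + k ^ 2 + α) / 2 * 2 ^ c := by
  obtain ⟨q1, q2⟩ := chern_coeffs (a * k :: d)
  simp only [List.map_cons, List.sum_cons, List.length_cons, h1, h2] at q1 q2
  push_cast at q1 q2
  have hp : (d.prod : ℚ) * a ^ 3 = 2 ^ c := by exact_mod_cast hprod
  refine ⟨?_, ?_, ?_⟩
  · rw [canon, q1]; ring
  · rw [c1sq, q1, List.prod_cons, Nat.cast_mul, Nat.cast_mul, ← hp]; ring
  · rw [c2, q2, List.prod_cons, Nat.cast_mul, Nat.cast_mul, ← hp]; ring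

/-- The coincidences. -/
theorem exists_family (N : ℕ) : ∃ (α c : ℕ) (a : Fin N → ℕ) (d : Fin N → List ℕ),
    Function.Injective a ∧ (∀ i, 0 < a i) ∧ (∀ i, Even (a i)) ∧ (∀ i, ∀ t ∈ d i, 2 ≤ t) ∧
    ∀ i k, canon (a i * k :: d i) = a i * (α + k) ∧
      c1sq (a i * k :: d i) = k * (α + k) ^ 2 * 2 ^ c ∧
      c2 (a i * k :: d i) = k * ((α + k) ^ 2 + k ^ 2 + α) / 2 * 2 ^ c := by
  obtain ⟨S, hS⟩ : ∃ S, S = 3 * (2 * N + 5) := ⟨_, rfl⟩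
  have hex : ∀ i : Fin N, ∃ d : List ℕ, (∀ e ∈ d, 2 ≤ e) ∧
      d.prod * (2 ^ (3 * (N + 5 + i))) ^ 3 = 2 ^ (36 * (2 ^ S) ^ 2 * (9 * S + 2)) ∧
      (d.map fun e : ℕ => (e : ℚ)).sum =
        d.length + ((36 * (2 ^ S) ^ 2 - 4) * 2 ^ (3 * (N + 5 + i)) + 4) ∧
      (d.map fun e : ℕ => (e : ℚ) ^ 2).sum =
        d.length + ((36 * (2 ^ S) ^ 2 - 4) * (2 ^ (3 * (N + 5 + i))) ^ 2 + 4) := by
    intro i
    apply exists_lst S (N + 5 + i) (by omega)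
    · calc 100 * S ≤ 2 ^ (3 * (N + 5)) := by rw [hS]; exact pow_big N
        _ ≤ 2 ^ (3 * (N + 5 + i)) := Nat.pow_le_pow_right (by norm_num) (by omega)
    · have := i.2; omega
  choose d hd1 hd2 hd3 hd4 using hex
  have hα : ((36 * (2 ^ S) ^ 2 - 4 : ℕ) : ℚ) = 36 * (2 ^ S) ^ 2 - 4 := by
    rw [Nat.cast_sub]
    · push_cast; ring
    · have : 1 ≤ (2 ^ S) ^ 2 := Nat.one_le_two_pow.trans (Nat.le_self_pow (by norm_num) _)
      omega
  refine ⟨36 * (2 ^ S) ^ 2 - 4, 36 * (2 ^ S) ^ 2 * (9 * S + 2),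
    fun i => 2 ^ (3 * (N + 5 + i)), d, ?_, ?_, ?_, hd1, ?_⟩
  · intro i j hij
    have := Nat.pow_right_injective (le_refl 2) hij
    ext
    omega
  · intro i; positivity
  · intro i
    exact (Nat.even_pow' (by omega)).mpr even_two
  · intro i k
    apply numbers
    · exact hd2 i
    · rw [hd3 i, hα]; push_cast; ring
    · rw [hd4 i, hα]; push_cast; ring

end Pool.Agent.Work.MP_671ba1_h57
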