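import Mathlib

/-!
Numerical part for MP_671ba1_gt: lists of powers of two with prescribed
`∑ (d - 1)`, `∑ (d² - 1)` and product.
-/

namespace Pool.Agent.Work.MP_671ba1_h57

/-- the five multiplicities, over the integers -/
theorem exists_counts_int (S a u t : ℤ) (hS : 15 ≤ S) (ha : 100 * S ≤ a) (hu : 1 ≤ u)
    (ht0 : 0 ≤ t) (ht : 3 * t ≤ S) :
    ∃ x1 x2 x3 k0 k1 : ℤ, 0 ≤ x1 ∧ 0 ≤ x2 ∧ 0 ≤ x3 ∧ 0 ≤ k0 ∧ 0 ≤ k1 ∧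
      x1 + 2 * x2 + 3 * x3 + 3 * t * k0 + (3 * t + 1) * k1 =
        36 * (a * u) ^ 2 * (6 * S + 2 + 3 * S) - 9 * t ∧
      x1 + 3 * x2 + 7 * x3 + (a - 1) * k0 + (2 * a - 1) * k1 =
        (36 * (a * u) ^ 2 - 4) * a + 4 ∧
      3 * x1 + 15 * x2 + 63 * x3 + (a ^ 2 - 1) * k0 + (4 * a ^ 2 - 1) * k1 =
        (36 * (a * u) ^ 2 - 4) * a ^ 2 + 4 := by
  obtain ⟨V, hV⟩ : ∃ V : ℤ, V = 13 * S + 2 := ⟨_, rfl⟩
  obtain ⟨W, hW⟩ : ∃ W : ℤ, W = 81 * S + 14 := ⟨_, rfl⟩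
  obtain ⟨K3, hK3⟩ : ∃ K3 : ℤ, K3 = 36 * a ^ 2 * u ^ 2 - 1 - 54 * V * a * u ^ 2
      - 36 * W * u ^ 2 := ⟨_, rfl⟩
  have ha0 : 1500 ≤ a := by linarith
  have hu2 : 1 ≤ u ^ 2 := by nlinarith
  have hV0 : 0 ≤ V := by rw [hV]; linarith
  have hW0 : 0 ≤ W := by rw [hW]; linarith
  have hVa : 7 * V ≤ a := by rw [hV]; linarith
  have hWa : 20 * W ≤ 19 * a := by rw [hW]; linarith
  have hau : 0 ≤ a * u ^ 2 := by positivity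
  have haau : a * u ^ 2 * 1500 ≤ a ^ 2 * u ^ 2 := by nlinarith
  have hVau : 7 * (V * a * u ^ 2) ≤ a ^ 2 * u ^ 2 := by nlinarith
  have hWau : 20 * (W * a * u ^ 2) ≤ 19 * (a ^ 2 * u ^ 2) := by nlinarith
  have hWu : 20 * (W * u ^ 2) ≤ 19 * (a * u ^ 2) := by nlinarith
  have hVau0 : 0 ≤ V * a * u ^ 2 := by positivity
  have hWau0 : 0 ≤ W * a * u ^ 2 := by positivity
  have hWu0 : 0 ≤ W * u ^ 2 := by positivity
  have hau1 : 1500 ≤ a * u ^ 2 := by nlinarith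
  -- bounds of K3
  have hK3u : K3 ≤ 36 * (a ^ 2 * u ^ 2) := by rw [hK3]; nlinarith
  have hK3l : 0 ≤ K3 := by rw [hK3]; nlinarith
  have htK : 3 * (t * K3) ≤ S * (36 * (a ^ 2 * u ^ 2)) := by nlinarith
  have htK0 : 0 ≤ t * K3 := by positivity
  have hSq : 15 * (a ^ 2 * u ^ 2) ≤ S * (a ^ 2 * u ^ 2) := by nlinarith
  refine ⟨36 * (a * u) ^ 2 * (6 * S) + (144 * V - 162 * W) * a * u ^ 2 + 152 * W * u ^ 2
      - 14 * t * K3,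
    36 * (a * u) ^ 2 + 108 * (W - V) * a * u ^ 2 - 100 * W * u ^ 2 + 7 * t * K3,
    36 * (a * u) ^ 2 * S + 18 * (V - W) * a * u ^ 2 + 16 * W * u ^ 2 - t * K3,
    36 * a ^ 2 * u ^ 2 - 4 - 72 * V * a * u ^ 2 - 36 * W * u ^ 2,
    18 * V * a * u ^ 2, ?_, ?_, ?_, ?_, ?_, ?_, ?_, ?_⟩
  · nlinarith
  · have : 0 ≤ (W - V) * a * u ^ 2 := by
      have : 0 ≤ W - V := by rw [hV, hW]; linarith
      positivity
    nlinarith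
  · nlinarith
  · nlinarith
  · positivity
  · rw [hK3, hV, hW]; ring
  · rw [hK3, hV, hW]; ring
  · rw [hK3, hV, hW]; ring

end Pool.Agent.Work.MP_671ba1_h57
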